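import Pool.Agent.H26.TopeFin

set_option autoImplicit false

open H26.Tope

theorem Pool.Agent.Results.MP_d06cab_co.Reconstruct.result :
    ∀ (d : ℕ), 3 ≤ d → ∀ (A B : Arr d),
      (∃ φ : A.Cell ≃ B.Cell, ∀ C D, Arr.Adj C D ↔ Arr.Adj (φ C) (φ D)) →
      ∃ ψ : A.Face ≃ B.Face, ∀ F G, Arr.Inc F G ↔ Arr.Inc (ψ F) (ψ G) :=
  fun _ hd _ _ ⟨φ, hφ⟩ => final hd φ hφ
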